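import Mathlib
import Pool.Agent.Helper76_LAG.Stmt
import Pool.Agent.Common_LLL.Basic

/-!
# LAG, module ALLL: the adaptive local lemma
-/

set_option autoImplicit false

namespace Pool.Agent.LAG.H32

open scoped BigOperators

section alll

set_option linter.unusedSectionVars false
set_option linter.unusedDecidableInType false

variable {I α ι : Type} [Fintype I] [DecidableEq I] [Fintype α] [DecidableEq α] [Fintype ι]

open Classical in
/-- The configurations without a bad event whose support is contained in `J`. -/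
noncomputable def gd (B : ι → (I → α) → Prop) (D : ι → (I → α) → Finset I) (J : Finset I) :
    Finset (I → α) :=
  Finset.univ.filter fun ω => ∀ i, B i ω → ¬ D i ω ⊆ J

open Classical in
/-- The configurations with bad event `i` and support `S`. -/
noncomputable def ev (B : ι → (I → α) → Prop) (D : ι → (I → α) → Finset I) (i : ι)
    (S : Finset I) : Finset (I → α) :=
  Finset.univ.filter fun ω => B i ω ∧ D i ω = S

lemma mem_gd (B : ι → (I → α) → Prop) (D : ι → (I → α) → Finset I) (J : Finset I)
    (ω : I → α) : ω ∈ gd B D J ↔ ∀ i, B i ω → ¬ D i ω ⊆ J := by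
  simp [gd]

lemma mem_ev (B : ι → (I → α) → Prop) (D : ι → (I → α) → Finset I) (i : ι) (S : Finset I)
    (ω : I → α) : ω ∈ ev B D i S ↔ B i ω ∧ D i ω = S := by
  simp [ev]

lemma gd_anti (B : ι → (I → α) → Prop) (D : ι → (I → α) → Finset I) {J J' : Finset I}
    (h : J ⊆ J') : gd B D J' ⊆ gd B D J := by
  intro ω hω
  rw [mem_gd] at hω ⊢
  intro i hi hs
  exact hω i hi (hs.trans h)

lemma gd_ev (B : ι → (I → α) → Prop) (D : ι → (I → α) → Finset I)
    (hst : ∀ i ω ω', B i ω → (∀ v ∈ D i ω, ω v = ω' v) → B i ω' ∧ D i ω' = D i ω)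
    (J S : Finset I) (i : ι) :
    ((ev B D i S ∩ gd B D (J \ S)).card : ℝ) * Fintype.card (I → α) =
      (ev B D i S).card * (gd B D (J \ S)).card := by
  classical
  have h := Pool.Agent.Common_LLL.card_inter_mul S (ev B D i S) (gd B D (J \ S)) (by
    intro ω ω' h1 h2
    rw [mem_ev] at h2 ⊢
    have h3 := hst i ω ω' h2.1 (by rw [h2.2]; exact h1)
    exact ⟨h3.1, h3.2.trans h2.2⟩) (by
    intro ω ω' h1 h2
    rw [mem_gd] at h2 ⊢
    intro j hj hs
    have h3 := hst j ω' ω hj (by
      intro v hv
      have := hs hv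
      rw [Finset.mem_sdiff] at this
      exact (h1 v this.2).symm)
    exact h2 j h3.1 (by rw [h3.2]; exact hs))
  have h' : ((ev B D i S ∩ gd B D (J \ S)).card * Fintype.card (I → α) : ℕ) =
      (ev B D i S).card * (gd B D (J \ S)).card := by
    exact h
  exact_mod_cast h'

lemma pow_bound (K : ℕ) (hK : 2 ≤ K) (m : ℕ) (hm : m + 1 ≤ K) :
    1 ≤ 4 * (1 - 1 / (K : ℝ)) ^ m := by
  have hK' : (2 : ℝ) ≤ K := by exact_mod_cast hK
  have hm' : (m : ℝ) + 1 ≤ K := by exact_mod_cast hm
  have h1 : (0 : ℝ) < 1 - 1 / (K : ℝ) := by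
    rw [sub_pos, div_lt_one (by linarith)]
    linarith
  -- inverse
  have h2 : (1 - 1 / (K : ℝ))⁻¹ = 1 + 1 / ((K : ℝ) - 1) := by
    have : (K : ℝ) - 1 ≠ 0 := by linarith
    have : (K : ℝ) ≠ 0 := by linarith
    field_simp
    ring
  have h3 : (1 + 1 / ((K : ℝ) - 1)) ^ m ≤ 4 := by
    have h4 : (1 + 1 / ((K : ℝ) - 1)) ≤ Real.exp (1 / ((K : ℝ) - 1)) := by
      have := Real.add_one_le_exp (1 / ((K : ℝ) - 1))
      linarith
    have h5 : (0 : ℝ) ≤ 1 + 1 / ((K : ℝ) - 1) := by
      have : 0 ≤ 1 / ((K : ℝ) - 1) := by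
        apply div_nonneg zero_le_one
        linarith
      linarith
    calc (1 + 1 / ((K : ℝ) - 1)) ^ m ≤ Real.exp (1 / ((K : ℝ) - 1)) ^ m := by gcongr
      _ = Real.exp (m * (1 / ((K : ℝ) - 1))) := by rw [← Real.exp_nat_mul]
      _ ≤ Real.exp 1 := by
          apply Real.exp_le_exp.mpr
          rw [mul_one_div, div_le_one (by linarith)]
          linarith
      _ ≤ 4 := by
          have := Real.exp_one_lt_d9
          linarith
  rw [← h2, inv_pow] at h3
  have h6 : 0 < (1 - 1 / (K : ℝ)) ^ m := pow_pos h1 m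
  have h7 := mul_le_mul_of_nonneg_right h3 h6.le
  rwa [inv_mul_cancel₀ h6.ne'] at h7

theorem gd_step (B : ι → (I → α) → Prop) (D : ι → (I → α) → Finset I) (K : ℕ) (hK : 2 ≤ K)
    (hΩ : 0 < Fintype.card (I → α))
    (hst : ∀ i ω ω', B i ω → (∀ v ∈ D i ω, ω v = ω' v) → B i ω' ∧ D i ω' = D i ω)
    (hD : ∀ i ω, B i ω → (D i ω).Nonempty ∧ (D i ω).card ≤ K)
    (hsum : ∀ v, 4 * K * ∑ i, Nat.card {ω : I → α // B i ω ∧ v ∈ D i ω} ≤ Nat.card (I → α)) :
    ∀ J : Finset I, ∀ v, v ∉ J →
      (1 - 1 / (K : ℝ)) * (gd B D J).card ≤ (gd B D (insert v J)).card := by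
  classical
  have hK' : (2 : ℝ) ≤ K := by exact_mod_cast hK
  have hK0 : (0 : ℝ) < K := by linarith
  have hΩ' : (0 : ℝ) < (Fintype.card (I → α) : ℕ) := by exact_mod_cast hΩ
  have hq : (0 : ℝ) < 1 - 1 / (K : ℝ) := by
    rw [sub_pos, div_lt_one (by linarith)]
    linarith
  intro J
  induction J using Finset.strongInduction with
  | H J ih =>
  intro v hv
  -- removal of a set
  have hrem : ∀ S : Finset I, S ⊆ J →
      (1 - 1 / (K : ℝ)) ^ S.card * (gd B D (J \ S)).card ≤ (gd B D J).card := by
    intro S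
    induction S using Finset.induction_on with
    | empty => intro _; simp
    | insert a S ha ih2 =>
      intro hS
      have hS' : S ⊆ J := (Finset.subset_insert a S).trans hS
      have haJ : a ∈ J := hS (Finset.mem_insert_self a S)
      have h1 := ih (J \ insert a S) (by
        refine Finset.ssubset_iff_subset_ne.mpr ⟨Finset.sdiff_subset, ?_⟩
        intro h
        have : a ∈ J \ insert a S := by rw [h]; exact haJ
        simp at this) a (by simp)
      have h2 : insert a (J \ insert a S) = J \ S := by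
        ext x
        simp only [Finset.mem_insert, Finset.mem_sdiff, not_or]
        constructor
        · rintro (rfl | h)
          · exact ⟨haJ, ha⟩
          · exact ⟨h.1, h.2.2⟩
        · intro h
          by_cases hx : x = a
          · exact Or.inl hx
          · exact Or.inr ⟨h.1, hx, h.2⟩
      rw [h2] at h1
      rw [Finset.card_insert_of_notMem ha, pow_succ]
      calc (1 - 1 / (K : ℝ)) ^ S.card * (1 - 1 / (K : ℝ)) * (gd B D (J \ insert a S)).card
          = (1 - 1 / (K : ℝ)) ^ S.card * ((1 - 1 / (K : ℝ)) * (gd B D (J \ insert a S)).card) := by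
            ring
        _ ≤ (1 - 1 / (K : ℝ)) ^ S.card * (gd B D (J \ S)).card := by gcongr
        _ ≤ (gd B D J).card := ih2 hS'
  have h4 : ∀ S : Finset I, v ∈ S → S.card ≤ K →
      ((gd B D (J \ S)).card : ℝ) ≤ 4 * (gd B D J).card := by
    intro S hvS hSK
    have h1 := hrem (S ∩ J) Finset.inter_subset_right
    have h2 : J \ (S ∩ J) = J \ S := by
      ext x
      simp only [Finset.mem_sdiff, Finset.mem_inter]
      tauto
    rw [h2] at h1
    have h3 : (S ∩ J).card + 1 ≤ K := by
      have : (S ∩ J).card < S.card := by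
        apply Finset.card_lt_card
        refine Finset.ssubset_iff_subset_ne.mpr ⟨Finset.inter_subset_left, ?_⟩
        intro h
        have : v ∈ S ∩ J := by rw [h]; exact hvS
        exact hv (Finset.mem_inter.mp this).2
      omega
    have h5 := pow_bound K hK _ h3
    calc ((gd B D (J \ S)).card : ℝ)
        ≤ (4 * (1 - 1 / (K : ℝ)) ^ (S ∩ J).card) * (gd B D (J \ S)).card := by
          apply le_mul_of_one_le_left (by positivity) h5
      _ = 4 * ((1 - 1 / (K : ℝ)) ^ (S ∩ J).card * (gd B D (J \ S)).card) := by ring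
      _ ≤ 4 * (gd B D J).card := by linarith
  -- the union bound
  set U : Finset (Finset I) := Finset.univ.filter fun S => v ∈ S ∧ S.card ≤ K with hU
  have hsub : gd B D J \ gd B D (insert v J) ⊆
      Finset.univ.biUnion fun i => U.biUnion fun S => ev B D i S ∩ gd B D (J \ S) := by
    intro ω hω
    rw [Finset.mem_sdiff] at hω
    have h1 := (mem_gd B D J ω).mp hω.1
    have h2 := hω.2
    rw [mem_gd] at h2
    push Not at h2
    obtain ⟨i, hi, hs⟩ := h2
    rw [Finset.mem_biUnion]
    refine ⟨i, Finset.mem_univ i, ?_⟩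
    rw [Finset.mem_biUnion]
    refine ⟨D i ω, ?_, ?_⟩
    · rw [hU, Finset.mem_filter]
      refine ⟨Finset.mem_univ _, ?_, (hD i ω hi).2⟩
      by_contra hvn
      apply h1 i hi
      intro x hx
      have := hs hx
      rw [Finset.mem_insert] at this
      rcases this with rfl | h
      · exact absurd hx hvn
      · exact h
    · rw [Finset.mem_inter, mem_ev]
      exact ⟨⟨hi, rfl⟩, gd_anti B D Finset.sdiff_subset hω.1⟩
  have hcard : ((gd B D J).card : ℝ) - (gd B D (insert v J)).card ≤
      ∑ i, ∑ S ∈ U, ((ev B D i S ∩ gd B D (J \ S)).card : ℝ) := by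
    have h1 : (gd B D J \ gd B D (insert v J)).card =
        (gd B D J).card - (gd B D (insert v J)).card :=
      Finset.card_sdiff_of_subset (gd_anti B D (Finset.subset_insert v J))
    have h2 : (gd B D (insert v J)).card ≤ (gd B D J).card :=
      Finset.card_le_card (gd_anti B D (Finset.subset_insert v J))
    have h3 : ((gd B D J \ gd B D (insert v J)).card : ℝ) =
        (gd B D J).card - (gd B D (insert v J)).card := by
      rw [h1, Nat.cast_sub h2]
    rw [← h3]
    have h5 : (gd B D J \ gd B D (insert v J)).card ≤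
        ∑ i, ∑ S ∈ U, (ev B D i S ∩ gd B D (J \ S)).card := by
      refine (Finset.card_le_card hsub).trans ?_
      refine Finset.card_biUnion_le.trans ?_
      exact Finset.sum_le_sum fun i _ => Finset.card_biUnion_le
    exact_mod_cast h5
  have hterm : ∀ i, (∑ S ∈ U, ((ev B D i S ∩ gd B D (J \ S)).card : ℝ)) * Fintype.card (I → α) ≤
      4 * (gd B D J).card * Nat.card {ω : I → α // B i ω ∧ v ∈ D i ω} := by
    intro i
    have h1 : (Nat.card {ω : I → α // B i ω ∧ v ∈ D i ω} : ℝ) =
        ∑ S ∈ U, ((ev B D i S).card : ℝ) := by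
      have h2 : Nat.card {ω : I → α // B i ω ∧ v ∈ D i ω} =
          (Finset.univ.filter fun ω : I → α => B i ω ∧ v ∈ D i ω).card := by
        rw [Nat.card_eq_fintype_card, Fintype.card_subtype]
      have h3 : (Finset.univ.filter fun ω : I → α => B i ω ∧ v ∈ D i ω).card =
          ∑ S ∈ U, (ev B D i S).card := by
        rw [Finset.card_eq_sum_card_fiberwise (f := fun ω => D i ω) (t := U)]
        · apply Finset.sum_congr rfl
          intro S hS
          congr 1
          ext ω
          rw [mem_ev, Finset.mem_filter, Finset.mem_filter]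
          constructor
          · rintro ⟨⟨_, h, _⟩, h'⟩
            exact ⟨h, h'⟩
          · rintro ⟨h, h'⟩
            refine ⟨⟨Finset.mem_univ _, h, ?_⟩, h'⟩
            rw [h']
            exact (Finset.mem_filter.mp hS).2.1
        · intro ω hω
          have hω' := (Finset.mem_filter.mp (Finset.mem_coe.mp hω)).2
          rw [Finset.mem_coe, hU, Finset.mem_filter]
          exact ⟨Finset.mem_univ _, hω'.2, (hD i ω hω'.1).2⟩
      rw [h2, h3]
      push_cast
      rfl
    rw [h1, Finset.sum_mul, Finset.mul_sum]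
    apply Finset.sum_le_sum
    intro S hS
    have hS' := (Finset.mem_filter.mp hS).2
    rw [gd_ev B D hst J S i]
    have h5 := h4 S hS'.1 hS'.2
    have h6 : (0 : ℝ) ≤ (ev B D i S).card := by positivity
    nlinarith
  have htot : (((gd B D J).card : ℝ) - (gd B D (insert v J)).card) * Fintype.card (I → α) ≤
      4 * (gd B D J).card * ((∑ i, Nat.card {ω : I → α // B i ω ∧ v ∈ D i ω} : ℕ) : ℝ) := by
    calc (((gd B D J).card : ℝ) - (gd B D (insert v J)).card) * Fintype.card (I → α)
        ≤ (∑ i, ∑ S ∈ U, ((ev B D i S ∩ gd B D (J \ S)).card : ℝ)) *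
            Fintype.card (I → α) := by gcongr
      _ = ∑ i, (∑ S ∈ U, ((ev B D i S ∩ gd B D (J \ S)).card : ℝ)) *
            Fintype.card (I → α) := by rw [Finset.sum_mul]
      _ ≤ ∑ i, 4 * (gd B D J).card * (Nat.card {ω : I → α // B i ω ∧ v ∈ D i ω} : ℝ) :=
          Finset.sum_le_sum fun i _ => hterm i
      _ = _ := by
          rw [← Finset.mul_sum]
          push_cast
          rfl
  have hs := hsum v
  rw [Nat.card_eq_fintype_card (α := I → α)] at hs
  have hs' : 4 * (K : ℝ) * ((∑ i, Nat.card {ω : I → α // B i ω ∧ v ∈ D i ω} : ℕ) : ℝ) ≤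
      (Fintype.card (I → α) : ℕ) := by exact_mod_cast hs
  have hN : (0 : ℝ) ≤ (gd B D J).card := by positivity
  -- K (N - N') * Ω ≤ N * Ω
  have h7 : (K * (((gd B D J).card : ℝ) - (gd B D (insert v J)).card)) *
      (Fintype.card (I → α) : ℕ) ≤ (gd B D J).card * (Fintype.card (I → α) : ℕ) := by
    calc (K * (((gd B D J).card : ℝ) - (gd B D (insert v J)).card)) *
          (Fintype.card (I → α) : ℕ)
        = K * ((((gd B D J).card : ℝ) - (gd B D (insert v J)).card) *
          (Fintype.card (I → α) : ℕ)) := by ring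
      _ ≤ K * (4 * (gd B D J).card *
          ((∑ i, Nat.card {ω : I → α // B i ω ∧ v ∈ D i ω} : ℕ) : ℝ)) := by gcongr
      _ = (gd B D J).card * (4 * (K : ℝ) *
          ((∑ i, Nat.card {ω : I → α // B i ω ∧ v ∈ D i ω} : ℕ) : ℝ)) := by ring
      _ ≤ (gd B D J).card * (Fintype.card (I → α) : ℕ) := by gcongr
  have h8 := le_of_mul_le_mul_right h7 hΩ'
  have h9 : (1 - 1 / (K : ℝ)) * (gd B D J).card =
      (gd B D J).card - (gd B D J).card / K := by ring
  rw [h9]
  have h10 : ((gd B D J).card : ℝ) - (gd B D (insert v J)).card ≤ (gd B D J).card / K := by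
    rw [le_div_iff₀ hK0]
    linarith
  linarith

end alll

end Pool.Agent.LAG.H32

namespace Pool.Agent.LAG

theorem alll : AlllStmt := by
  intro I α ι _ _ _ _ _ B D K hK hst hD hsum
  classical
  have hΩ : 0 < Fintype.card (I → α) := Fintype.card_pos
  have hstep := H32.gd_step B D K hK hΩ hst hD hsum
  have hK' : (2 : ℝ) ≤ K := by exact_mod_cast hK
  have hq : (0 : ℝ) < 1 - 1 / (K : ℝ) := by
    rw [sub_pos, div_lt_one (by linarith)]
    linarith
  have hpos : ∀ J : Finset I, 0 < (H32.gd B D J).card := by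
    intro J
    induction J using Finset.induction_on with
    | empty =>
      have : H32.gd B D ∅ = Finset.univ := by
        ext ω
        rw [H32.mem_gd]
        simp only [Finset.subset_empty, Finset.mem_univ, iff_true]
        intro i hi
        exact Finset.nonempty_iff_ne_empty.mp (hD i ω hi).1
      rw [this, Finset.card_univ]
      exact hΩ
    | insert a J ha ih =>
      have h1 := hstep J a ha
      have h2 : (0 : ℝ) < (H32.gd B D J).card := by exact_mod_cast ih
      have h3 : (0 : ℝ) < (H32.gd B D (insert a J)).card := by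
        have := mul_pos hq h2
        linarith
      exact_mod_cast h3
  obtain ⟨ω, hω⟩ := Finset.card_pos.mp (hpos Finset.univ)
  refine ⟨ω, fun i hi => ?_⟩
  exact (H32.mem_gd B D Finset.univ ω).mp hω i hi (Finset.subset_univ _)

end Pool.Agent.LAG
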