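import Mathlib
import Pool.Agent.Helper76_LAG.Stmt

/-!
# LAG, module JNT: application of the adaptive local lemma
-/

set_option autoImplicit false

namespace Pool.Agent.LAG.H32

open scoped BigOperators
open SimpleGraph

/-- Sum over all graphs of events of one factor. -/
lemma lift_sum (hLIFT : LiftStmt) {Q V α κ : Type} [Fintype Q] [Fintype V] [DecidableEq Q]
    [Fintype α] [Nonempty α] [Fintype κ]
    (P : Q → κ → (V → α) → Prop) (S : Q → κ → (V → α) → Finset V)
    (R : Q × κ → (Q × V → α) → Prop)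
    (q0 : Q) (x0 : V)
    (hR : ∀ p ω, R p ω → p.1 = q0 ∧ P p.1 p.2 (fun v => ω (p.1, v)) ∧
      x0 ∈ S p.1 p.2 (fun v => ω (p.1, v)))
    (A C : ℕ)
    (h : A * ∑ k, Nat.card {ω : V → α // P q0 k ω ∧ x0 ∈ S q0 k ω} ≤ C * Nat.card (V → α)) :
    A * ∑ p : Q × κ, Nat.card {ω : Q × V → α // R p ω} ≤ C * Nat.card (Q × V → α) := by
  classical
  have h1 : ∑ p : Q × κ, Nat.card {ω : Q × V → α // R p ω} ≤
      ∑ k, Nat.card {ω : Q × V → α // P q0 k (fun v => ω (q0, v)) ∧
        x0 ∈ S q0 k (fun v => ω (q0, v))} := by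
    rw [Fintype.sum_prod_type]
    have h2 : ∀ q, q ≠ q0 → ∑ k, Nat.card {ω : Q × V → α // R (q, k) ω} = 0 := by
      intro q hq
      apply Finset.sum_eq_zero
      intro k _
      have : IsEmpty {ω : Q × V → α // R (q, k) ω} := ⟨fun ω => hq (hR _ _ ω.2).1⟩
      exact Nat.card_of_isEmpty
    rw [Finset.sum_eq_single q0 (fun q _ hq => h2 q hq) (fun h => absurd (Finset.mem_univ _) h)]
    apply Finset.sum_le_sum
    intro k _
    apply Nat.card_le_card_of_injective
      (fun ω : {ω : Q × V → α // R (q0, k) ω} =>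
        (⟨ω.1, (hR _ _ ω.2).2⟩ : {ω : Q × V → α // P q0 k (fun v => ω (q0, v)) ∧
        x0 ∈ S q0 k (fun v => ω (q0, v))}))
    intro a b hab
    apply Subtype.ext
    have := congrArg Subtype.val hab
    exact this
  have h3 : ∀ k, Nat.card {ω : Q × V → α // P q0 k (fun v => ω (q0, v)) ∧
        x0 ∈ S q0 k (fun v => ω (q0, v))} * Nat.card (V → α) =
      Nat.card {ω : V → α // P q0 k ω ∧ x0 ∈ S q0 k ω} * Nat.card (Q × V → α) := by
    intro k
    exact hLIFT Q V α q0 (fun ω => P q0 k ω ∧ x0 ∈ S q0 k ω)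
  have hpos : 0 < Nat.card (V → α) := by
    have : Nonempty (V → α) := inferInstance
    exact Nat.card_pos
  refine Nat.le_of_mul_le_mul_right (?_ : _ * Nat.card (V → α) ≤ _ * Nat.card (V → α)) hpos
  calc A * (∑ p : Q × κ, Nat.card {ω : Q × V → α // R p ω}) * Nat.card (V → α)
      ≤ A * (∑ k, Nat.card {ω : Q × V → α // P q0 k (fun v => ω (q0, v)) ∧
        x0 ∈ S q0 k (fun v => ω (q0, v))}) * Nat.card (V → α) := by gcongr
    _ = A * ∑ k, (Nat.card {ω : Q × V → α // P q0 k (fun v => ω (q0, v)) ∧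
        x0 ∈ S q0 k (fun v => ω (q0, v))} * Nat.card (V → α)) := by
        rw [mul_assoc, Finset.sum_mul]
    _ = A * ∑ k, (Nat.card {ω : V → α // P q0 k ω ∧ x0 ∈ S q0 k ω} *
          Nat.card (Q × V → α)) := by
        rw [Finset.sum_congr rfl fun k _ => h3 k]
    _ = A * (∑ k, Nat.card {ω : V → α // P q0 k ω ∧ x0 ∈ S q0 k ω}) *
          Nat.card (Q × V → α) := by
        rw [← Finset.sum_mul, mul_assoc]
    _ ≤ C * Nat.card (V → α) * Nat.card (Q × V → α) := by gcongr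
    _ = C * Nat.card (Q × V → α) * Nat.card (V → α) := by ring

/-- Number of kill values less than four. -/
lemma card_kill (L : ℕ) (hL : 4 ≤ L) :
    Nat.card {a : St L // a.1.2.val < 4} * L = 4 * Nat.card (St L) := by
  classical
  have h1 : Nat.card {a : St L // a.1.2.val < 4} =
      Nat.card ((Fin 3 × {b : Fin L // b.val < 4}) × (Fin 4 → Bool)) := by
    apply Nat.card_congr
    exact
      { toFun := fun a => ((a.1.1.1, ⟨a.1.1.2, a.2⟩), a.1.2)
        invFun := fun a => ⟨((a.1.1, a.1.2.1), a.2), a.1.2.2⟩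
        left_inv := fun a => rfl
        right_inv := fun a => rfl }
  have h2 : Nat.card {b : Fin L // b.val < 4} = 4 := by
    have : Nat.card {b : Fin L // b.val < 4} = Nat.card (Fin 4) := by
      apply Nat.card_congr
      exact
        { toFun := fun b => ⟨b.1.1, b.2⟩
          invFun := fun b => ⟨⟨b.1, by omega⟩, b.2⟩
          left_inv := fun b => rfl
          right_inv := fun b => rfl }
    rw [this, Nat.card_fin]
  have h3 : Nat.card (St L) = Nat.card ((Fin 3 × Fin L) × (Fin 4 → Bool)) := rfl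
  rw [h1, h3, Nat.card_prod, Nat.card_prod, Nat.card_prod, Nat.card_prod, h2, Nat.card_fin L]
  ring

lemma near_symm {V : Type} {G : SimpleGraph V} {r : ℕ} {a b : V} (h : near G r a b) :
    near G r b a := by
  obtain ⟨p, hp⟩ := h
  exact ⟨p.reverse, by rw [SimpleGraph.Walk.length_reverse]; exact hp⟩

/-- Two vertices with small kill value. -/
lemma card_two (hPRD : PrdStmt) {I : Type} [Fintype I] (L : ℕ) (hL : 4 ≤ L) (x x' : I)
    (hx : x ≠ x') :
    L ^ 2 * Nat.card {ω : I → St L // (ω x).1.2.val < 4 ∧ (ω x').1.2.val < 4} =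
      16 * Nat.card (I → St L) := by
  classical
  have h1 := hPRD I (St L) {x, x'} (fun _ a => a.1.2.val < 4)
  have h2 : Nat.card {ω : I → St L // ∀ v ∈ ({x, x'} : Finset I), (ω v).1.2.val < 4} =
      Nat.card {ω : I → St L // (ω x).1.2.val < 4 ∧ (ω x').1.2.val < 4} := by
    apply Nat.card_congr
    apply Equiv.subtypeEquivRight
    intro ω
    simp
  rw [h2, Finset.card_pair hx, Finset.prod_pair hx] at h1
  have h3 := card_kill L hL
  have : Nonempty (Fin L) := ⟨⟨0, by omega⟩⟩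
  have hpos : 0 < Nat.card (St L) ^ 2 := by
    apply pow_pos
    exact Nat.card_pos
  refine Nat.eq_of_mul_eq_mul_right hpos ?_
  calc L ^ 2 * Nat.card {ω : I → St L // (ω x).1.2.val < 4 ∧ (ω x').1.2.val < 4} *
        Nat.card (St L) ^ 2
      = L ^ 2 * (Nat.card {ω : I → St L // (ω x).1.2.val < 4 ∧ (ω x').1.2.val < 4} *
        Nat.card (St L) ^ 2) := by ring
    _ = L ^ 2 * (Nat.card {a : St L // a.1.2.val < 4} * Nat.card {a : St L // a.1.2.val < 4} *
        Nat.card (I → St L)) := by rw [h1]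
    _ = (Nat.card {a : St L // a.1.2.val < 4} * L) * (Nat.card {a : St L // a.1.2.val < 4} * L) *
        Nat.card (I → St L) := by ring
    _ = (4 * Nat.card (St L)) * (4 * Nat.card (St L)) * Nat.card (I → St L) := by rw [h3]
    _ = 16 * Nat.card (I → St L) * Nat.card (St L) ^ 2 := by ring

/-- The first kind of bad events. -/
lemma sum_one (hPRD : PrdStmt) (hBALL : BallStmt) {Q V : Type} [Fintype Q] [Fintype V]
    (L Δ : ℕ) (hL : 4 ≤ L) (G : SimpleGraph V) (hΔ : ∀ v, (G.neighborSet v).ncard ≤ Δ)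
    (hQ : Fintype.card Q ≤ Δ) (v : Q × V)
    (R : (Q × V) × (Q × V) → (Q × V → St L) → Prop)
    (hR : ∀ p ω, R p ω → p.1 ≠ p.2 ∧ near G 20 p.1.2 p.2.2 ∧ (ω p.1).1.2.val < 4 ∧
      (ω p.2).1.2.val < 4 ∧ (v = p.1 ∨ v = p.2)) :
    L ^ 2 * ∑ p, Nat.card {ω : Q × V → St L // R p ω} ≤
      32 * (Δ * (Δ + 1) ^ 20) * Nat.card (Q × V → St L) := by
  classical
  set Ω := Nat.card (Q × V → St L) with hΩ
  have h1 : ∀ p : (Q × V) × (Q × V), L ^ 2 * Nat.card {ω : Q × V → St L // R p ω} ≤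
      16 * Ω * ((if v = p.1 ∧ near G 20 p.2.2 v.2 then 1 else 0) +
        (if v = p.2 ∧ near G 20 p.1.2 v.2 then 1 else 0)) := by
    intro p
    by_cases hp : ∃ ω, R p ω
    · obtain ⟨ω0, hω0⟩ := hp
      obtain ⟨a1, a2, _, _, a5⟩ := hR p ω0 hω0
      have h2 : Nat.card {ω : Q × V → St L // R p ω} ≤
          Nat.card {ω : Q × V → St L // (ω p.1).1.2.val < 4 ∧ (ω p.2).1.2.val < 4} := by
        apply Nat.card_le_card_of_injective
          (fun ω : {ω : Q × V → St L // R p ω} =>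
            (⟨ω.1, (hR _ _ ω.2).2.2.1, (hR _ _ ω.2).2.2.2.1⟩ :
              {ω : Q × V → St L // (ω p.1).1.2.val < 4 ∧ (ω p.2).1.2.val < 4}))
        intro a b hab
        apply Subtype.ext
        have := congrArg Subtype.val hab
        exact this
      have h3 := card_two hPRD L hL p.1 p.2 a1
      have h4 : 1 ≤ ((if v = p.1 ∧ near G 20 p.2.2 v.2 then 1 else 0) +
        (if v = p.2 ∧ near G 20 p.1.2 v.2 then 1 else 0) : ℕ) := by
        rcases a5 with h | h
        · rw [if_pos ⟨h, by rw [h]; exact near_symm a2⟩]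
          omega
        · have : v = p.2 ∧ near G 20 p.1.2 v.2 := ⟨h, by rw [h]; exact a2⟩
          rw [if_pos this]
          omega
      calc L ^ 2 * Nat.card {ω : Q × V → St L // R p ω}
          ≤ L ^ 2 * Nat.card {ω : Q × V → St L //
              (ω p.1).1.2.val < 4 ∧ (ω p.2).1.2.val < 4} := by gcongr
        _ = 16 * Ω * 1 := by rw [h3, mul_one]
        _ ≤ _ := Nat.mul_le_mul_left _ h4
    · have : IsEmpty {ω : Q × V → St L // R p ω} := ⟨fun ω => hp ⟨ω.1, ω.2⟩⟩
      rw [Nat.card_of_isEmpty, mul_zero]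
      exact Nat.zero_le _
  -- number of vertices which are near
  have hN : (Finset.univ.filter fun x : Q × V => near G 20 x.2 v.2).card ≤
      Δ * (Δ + 1) ^ 20 := by
    have h2 : (Finset.univ.filter fun x : Q × V => near G 20 x.2 v.2) =
        (Finset.univ : Finset Q) ×ˢ (Finset.univ.filter fun x : V => near G 20 x v.2) := by
      ext x
      simp
    rw [h2, Finset.card_product, Finset.card_univ]
    have h3 := hBALL V G Δ hΔ 20 v.2
    rw [Nat.card_eq_fintype_card, Fintype.card_subtype] at h3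
    exact Nat.mul_le_mul hQ h3
  have h5 : ∑ p : (Q × V) × (Q × V), (if v = p.1 ∧ near G 20 p.2.2 v.2 then 1 else 0) =
      (Finset.univ.filter fun x : Q × V => near G 20 x.2 v.2).card := by
    rw [Fintype.sum_prod_type]
    rw [Finset.sum_eq_single v]
    · rw [Finset.card_filter]
      apply Finset.sum_congr rfl
      intro x _
      simp
    · intro b _ hb
      apply Finset.sum_eq_zero
      intro x _
      rw [if_neg]
      rintro ⟨h, _⟩
      exact hb h.symm
    · intro h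
      exact absurd (Finset.mem_univ _) h
  have h6 : ∑ p : (Q × V) × (Q × V), (if v = p.2 ∧ near G 20 p.1.2 v.2 then 1 else 0) =
      (Finset.univ.filter fun x : Q × V => near G 20 x.2 v.2).card := by
    rw [Fintype.sum_prod_type_right]
    rw [Finset.sum_eq_single v]
    · rw [Finset.card_filter]
      apply Finset.sum_congr rfl
      intro x _
      simp
    · intro b _ hb
      apply Finset.sum_eq_zero
      intro x _
      rw [if_neg]
      rintro ⟨h, _⟩
      exact hb h.symm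
    · intro h
      exact absurd (Finset.mem_univ _) h
  calc L ^ 2 * ∑ p, Nat.card {ω : Q × V → St L // R p ω}
      = ∑ p, L ^ 2 * Nat.card {ω : Q × V → St L // R p ω} := by rw [Finset.mul_sum]
    _ ≤ ∑ p : (Q × V) × (Q × V), 16 * Ω * ((if v = p.1 ∧ near G 20 p.2.2 v.2 then 1 else 0) +
        (if v = p.2 ∧ near G 20 p.1.2 v.2 then 1 else 0)) :=
        Finset.sum_le_sum fun p _ => h1 p
    _ = 16 * Ω * ((Finset.univ.filter fun x : Q × V => near G 20 x.2 v.2).card +
          (Finset.univ.filter fun x : Q × V => near G 20 x.2 v.2).card) := by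
        rw [← Finset.mul_sum, Finset.sum_add_distrib, h5, h6]
    _ ≤ 16 * Ω * (Δ * (Δ + 1) ^ 20 + Δ * (Δ + 1) ^ 20) := by gcongr
    _ = 32 * (Δ * (Δ + 1) ^ 20) * Ω := by ring

/-! ### Congruence lemmas -/

lemma ptn_congr {V : Type} {L : ℕ} (E : Env V) (ω ω' : V → St L) (v u w : V) (h : ω v = ω' v) :
    Ptn E ω v u w ↔ Ptn E ω' v u w := by
  unfold Ptn
  rw [h]

lemma kil_congr {V : Type} {L : ℕ} (E : Env V) (ω ω' : V → St L) (v u : V) (h : ω v = ω' v) :
    Kil E ω v u ↔ Kil E ω' v u := by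
  unfold Kil
  rw [h]

/-- The restriction of a sequence. -/
lemma cyc_restrict {V : Type} (z : ℕ → V) (n t : ℕ) (ht : t ≤ n) :
    cyc (fun i : Fin (n + 1) => z i.val) t = z t := by
  unfold cyc
  show z (Fin.ofNat (n + 1) t).val = z t
  rw [Fin.val_ofNat, Nat.mod_eq_of_lt (by omega)]

lemma cyc_restrict' {V : Type} (z : ℕ → V) (n : ℕ) (h : z (n + 1) = z 0) (t : ℕ)
    (ht : t ≤ n + 1) :
    cyc (fun i : Fin (n + 1) => z i.val) t = z t := by
  rcases Nat.lt_or_ge t (n + 1) with h1 | h1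
  · exact cyc_restrict z n t (by omega)
  · have : t = n + 1 := by omega
    subst this
    unfold cyc
    show z (Fin.ofNat (n + 1) (n + 1)).val = z (n + 1)
    rw [Fin.val_ofNat, Nat.mod_self, h]

lemma isP_congr {V : Type} {G : SimpleGraph V} {z z' : ℕ → V} {n : ℕ}
    (h : ∀ t, t ≤ n → z' t = z t) (hz : IsP G z n) : IsP G z' n := by
  refine ⟨fun t ht => ?_, fun s t hs ht hst => ?_⟩
  · rw [h t (by omega), h (t + 1) (by omega)]
    exact hz.1 t ht
  · rw [h s hs, h t ht] at hst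
    exact hz.2 s t hs ht hst

lemma isC_congr {V : Type} {G : SimpleGraph V} {z z' : ℕ → V} {m : ℕ}
    (h : ∀ t, t ≤ m → z' t = z t) (hz : IsC G z m) : IsC G z' m := by
  refine ⟨hz.1, fun t ht => ?_, ?_, fun s t hs ht hst => ?_⟩
  · rw [h t (by omega), h (t + 1) (by omega)]
    exact hz.2.1 t ht
  · rw [h m le_rfl, h 0 (by omega)]
    exact hz.2.2.1
  · rw [h s hs.le, h t ht.le] at hst
    exact hz.2.2.2 s t hs ht hst

lemma ev2_congr {V : Type} {L : ℕ} {E : Env V} {ω : V → St L} {z z' : ℕ → V} {n : ℕ}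
    (h : ∀ t, t ≤ n → z' t = z t) (hz : Ev2 E ω z n) : Ev2 E ω z' n := by
  intro t h0 h1
  rw [h t (by omega), h (t - 1) (by omega), h (t + 1) (by omega)]
  exact hz t h0 h1

lemma ev3_congr {V : Type} {L : ℕ} {E : Env V} {ω : V → St L} {z z' : ℕ → V} {n : ℕ}
    (h : ∀ t, t ≤ n → z' t = z t) (hz : Ev3 E ω z n) : Ev3 E ω z' n := by
  intro t h0 h1
  rw [h t (by omega), h (t - 1) (by omega), h (t + 1) (by omega)]
  exact hz t h0 h1

/-! ### The events -/

/-- The index type of all events. -/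
abbrev JI (Q V : Type) (T ℓ : ℕ) : Type :=
  ((Q × V) × (Q × V)) ⊕ (Q × (Fin (T + 1) → V)) ⊕ (Q × ((n : Fin T) × (Fin (n.1 + 1) → V))) ⊕
    (Q × BIdx V (2 * T + ℓ))

/-- The bad events. -/
def JB {Q V : Type} {L : ℕ} (G : SimpleGraph V) (E : Q → Env V) (T ℓ : ℕ) :
    JI Q V T ℓ → (Q × V → St L) → Prop
  | Sum.inl p, ω => p.1 ≠ p.2 ∧ near G 20 p.1.2 p.2.2 ∧ (ω p.1).1.2.val < 4 ∧
      (ω p.2).1.2.val < 4
  | Sum.inr (Sum.inl p), ω => IsP (E p.1).H (cyc p.2) T ∧
      Ev2 (E p.1) (fun v => ω (p.1, v)) (cyc p.2) T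
  | Sum.inr (Sum.inr (Sum.inl p)), ω => IsC (E p.1).H (cyc p.2.2) (p.2.1.1 + 1) ∧
      Ev3 (E p.1) (fun v => ω (p.1, v)) (cyc p.2.2) (p.2.1.1 + 1)
  | Sum.inr (Sum.inr (Sum.inr p)), ω => BEv (E p.1) (fun v => ω (p.1, v)) T ℓ p.2.2.1
      p.2.2.2.1 p.2.2.2.2.1 p.2.2.2.2.2

open Classical in
/-- The supports. -/
noncomputable def JD {Q V : Type} [Fintype V] {L : ℕ} (E : Q → Env V) (T ℓ : ℕ) :
    JI Q V T ℓ → (Q × V → St L) → Finset (Q × V)
  | Sum.inl p, _ => {p.1, p.2}
  | Sum.inr (Sum.inl p), _ => ((Finset.Ioo 0 T).image (cyc p.2)).image (Prod.mk p.1)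
  | Sum.inr (Sum.inr (Sum.inl p)), _ =>
      ((Finset.Ioc 0 p.2.1.1).image (cyc p.2.2)).image (Prod.mk p.1)
  | Sum.inr (Sum.inr (Sum.inr p)), ω =>
      (Supp (E p.1) (fun v => ω (p.1, v)) T p.2.2.1 p.2.2.2.1).toFinset.image (Prod.mk p.1)

lemma jstop (hSTOP : StopStmt) {Q V : Type} [Fintype V] {L : ℕ} (G : SimpleGraph V)
    (E : Q → Env V) (T ℓ : ℕ) (i : JI Q V T ℓ) (ω ω' : Q × V → St L)
    (hB : JB G E T ℓ i ω) (h : ∀ v ∈ JD E T ℓ i ω, ω v = ω' v) :
    JB G E T ℓ i ω' ∧ JD E T ℓ i ω' = JD E T ℓ i ω := by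
  classical
  rcases i with p | p | p | p
  · simp only [JB, JD, Finset.mem_insert, Finset.mem_singleton, forall_eq_or_imp,
      forall_eq] at hB h ⊢
    rw [← h.1, ← h.2]
    exact ⟨hB, trivial⟩
  · simp only [JB, JD] at hB h ⊢
    refine ⟨⟨hB.1, ?_⟩, trivial⟩
    intro t h0 h1
    have h2 := hB.2 t h0 h1
    have h3 : ω (p.1, cyc p.2 t) = ω' (p.1, cyc p.2 t) := by
      apply h
      apply Finset.mem_image_of_mem
      apply Finset.mem_image_of_mem
      exact Finset.mem_Ioo.mpr ⟨h0, h1⟩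
    refine ⟨(ptn_congr (E p.1) (fun v => ω (p.1, v)) (fun v => ω' (p.1, v)) _ _ _ h3).mp h2.1,
      fun h4 => h2.2 ?_⟩
    exact (kil_congr (E p.1) (fun v => ω (p.1, v)) (fun v => ω' (p.1, v)) _ _ h3).mpr h4
  · simp only [JB, JD] at hB h ⊢
    refine ⟨⟨hB.1, ?_⟩, trivial⟩
    intro t h0 h1
    have h2 := hB.2 t h0 h1
    have h3 : ω (p.1, cyc p.2.2 t) = ω' (p.1, cyc p.2.2 t) := by
      apply h
      apply Finset.mem_image_of_mem
      apply Finset.mem_image_of_mem
      exact Finset.mem_Ioc.mpr ⟨h0, by omega⟩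
    exact (ptn_congr (E p.1) (fun v => ω (p.1, v)) (fun v => ω' (p.1, v)) _ _ _ h3).mp h2
  · simp only [JB, JD] at hB h ⊢
    have h2 := hSTOP V L T ℓ (E p.1) (fun v => ω (p.1, v)) (fun v => ω' (p.1, v)) _ _ _ _ _ hB
      (by
        intro v hv
        apply h
        apply Finset.mem_image_of_mem
        rw [Set.mem_toFinset]
        exact hv)
    refine ⟨h2.1, ?_⟩
    simp only [h2.2]

lemma jcard (hCARD : CardStmt) {Q V : Type} [Fintype V] {L : ℕ} (G : SimpleGraph V)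
    (E : Q → Env V) (T ℓ : ℕ) (hT : 86 ≤ T) (hℓ : 1 ≤ ℓ) (i : JI Q V T ℓ) (ω : Q × V → St L)
    (hB : JB G E T ℓ i ω) : (JD E T ℓ i ω).Nonempty ∧ (JD E T ℓ i ω).card ≤ KK T ℓ := by
  classical
  have hKK : 2 ≤ KK T ℓ ∧ T ≤ KK T ℓ := by
    unfold KK
    constructor <;> nlinarith
  rcases i with p | p | p | p
  · simp only [JD]
    refine ⟨⟨p.1, by simp⟩, ?_⟩
    exact Finset.card_le_two.trans hKK.1
  · simp only [JD]
    refine ⟨⟨(p.1, cyc p.2 1), ?_⟩, ?_⟩
    · apply Finset.mem_image_of_mem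
      apply Finset.mem_image_of_mem
      exact Finset.mem_Ioo.mpr ⟨by omega, by omega⟩
    · refine Finset.card_image_le.trans (Finset.card_image_le.trans ?_)
      rw [Nat.card_Ioo]
      omega
  · simp only [JB, JD] at hB ⊢
    refine ⟨⟨(p.1, cyc p.2.2 1), ?_⟩, ?_⟩
    · apply Finset.mem_image_of_mem
      apply Finset.mem_image_of_mem
      have := hB.1.1
      exact Finset.mem_Ioc.mpr ⟨by omega, by omega⟩
    · refine Finset.card_image_le.trans (Finset.card_image_le.trans ?_)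
      rw [Nat.card_Ioc]
      have := p.2.1.2
      omega
  · simp only [JB, JD] at hB ⊢
    refine ⟨⟨(p.1, cyc p.2.2.1 0), ?_⟩, ?_⟩
    · apply Finset.mem_image_of_mem
      rw [Set.mem_toFinset]
      exact ⟨cyc p.2.2.1 0, Or.inl rfl, Or.inl ⟨0, rfl⟩⟩
    · refine Finset.card_image_le.trans ?_
      have h1 := hCARD V L T (E p.1) (fun v => ω (p.1, v)) p.2.1.1 p.2.2.1 p.2.2.2.1
      rw [Set.ncard_eq_toFinset_card'] at h1
      refine h1.trans ?_
      unfold KK
      have h2 := p.2.1.2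
      have h3 : (p.2.2.2.1 : ℕ) ≤ ℓ := hB.2.1
      have h4 : p.2.1.1 + 1 ≤ 2 * T + ℓ := by omega
      have h5 : 2 * ((p.2.2.2.1 : ℕ) + 1) ≤ 2 * (ℓ + 1) := by omega
      exact Nat.mul_le_mul_left _ (Nat.add_le_add h4 (Nat.mul_le_mul_right _ h5))

end Pool.Agent.LAG.H32

namespace Pool.Agent.LAG

open SimpleGraph

theorem jnt (hALLL : AlllStmt) (hPRD : PrdStmt) (hBALL : BallStmt) (hLIFT : LiftStmt)
    (hTAM : TamStmt) (hSTOP : StopStmt) (hCARD : CardStmt) (hSUMB : SumBStmt) (hSUM2 : Sum2Stmt)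
    (hSUM3 : Sum3Stmt) : JntStmt := by
  intro V _ Δ h ℓ T L hNum G hG hΔ Q _ hQ E hE hal
  classical
  obtain ⟨hL, hT, hℓ, hn1, hn2, hn3⟩ := hNum
  have hne : Nonempty (Fin L) := ⟨⟨0, by omega⟩⟩
  set a := (T - 43) / 2 with ha
  have hKK : 2 ≤ KK T ℓ := by
    unfold KK
    nlinarith
  obtain ⟨ω, hω⟩ := hALLL (Q × V) (St L) (H32.JI Q V T ℓ) (H32.JB G E T ℓ) (H32.JD E T ℓ)
    (KK T ℓ) hKK (fun i ω ω' => H32.jstop hSTOP G E T ℓ i ω ω')
    (fun i ω => H32.jcard hCARD G E T ℓ hT hℓ i ω) (by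
      intro v
      set Ω := Nat.card (Q × V → St L) with hΩ
      have hΩpos : 0 < Ω := Nat.card_pos
      set K := KK T ℓ with hK
      -- kind one
      have s1 : 16 * K * ∑ p, Nat.card {ω : Q × V → St L // H32.JB G E T ℓ (Sum.inl p) ω ∧
          v ∈ H32.JD E T ℓ (Sum.inl p) ω} ≤ Ω := by
        have h1 := H32.sum_one hPRD hBALL L Δ hL G hΔ hQ v
          (fun p ω => H32.JB G E T ℓ (Sum.inl p) ω ∧ v ∈ H32.JD E T ℓ (Sum.inl p) ω) (by
            intro p ω hp
            simp only [H32.JB, H32.JD, Finset.mem_insert, Finset.mem_singleton] at hp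
            exact ⟨hp.1.1, hp.1.2.1, hp.1.2.2.1, hp.1.2.2.2, hp.2⟩)
        have hL2 : 0 < L ^ 2 := by positivity
        refine Nat.le_of_mul_le_mul_left (?_ : L ^ 2 * _ ≤ L ^ 2 * _) hL2
        have h2 : Δ * (Δ + 1) ^ 20 ≤ (Δ + 2) ^ 21 := by
          calc Δ * (Δ + 1) ^ 20 ≤ (Δ + 2) * (Δ + 2) ^ 20 := by gcongr <;> omega
            _ = (Δ + 2) ^ 21 := by ring
        calc L ^ 2 * (16 * K * ∑ p, Nat.card {ω : Q × V → St L //
              H32.JB G E T ℓ (Sum.inl p) ω ∧ v ∈ H32.JD E T ℓ (Sum.inl p) ω})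
            = 16 * K * (L ^ 2 * ∑ p, Nat.card {ω : Q × V → St L //
              H32.JB G E T ℓ (Sum.inl p) ω ∧ v ∈ H32.JD E T ℓ (Sum.inl p) ω}) := by ring
          _ ≤ 16 * K * (32 * (Δ * (Δ + 1) ^ 20) * Ω) := Nat.mul_le_mul_left _ h1
          _ ≤ 16 * K * (32 * (Δ + 2) ^ 21 * Ω) := by gcongr
          _ = 512 * K * (Δ + 2) ^ 21 * Ω := by ring
          _ ≤ L ^ 2 * Ω := Nat.mul_le_mul_right _ hn1
      -- kind two
      have s2 : 16 * K * ∑ p, Nat.card {ω : Q × V → St L //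
          H32.JB G E T ℓ (Sum.inr (Sum.inl p)) ω ∧
          v ∈ H32.JD E T ℓ (Sum.inr (Sum.inl p)) ω} ≤ Ω := by
        have h1 := H32.lift_sum hLIFT
          (fun (q : Q) (z : Fin (T + 1) → V) (ω : V → St L) =>
            IsP (E q).H (cyc z) T ∧ Ev2 (E q) ω (cyc z) T)
          (fun _ z _ => (Finset.Ioo 0 T).image (cyc z))
          (fun p ω => H32.JB G E T ℓ (Sum.inr (Sum.inl p)) ω ∧
            v ∈ H32.JD E T ℓ (Sum.inr (Sum.inl p)) ω) v.1 v.2 (by
            intro p ω hp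
            obtain ⟨hp1, hp2⟩ := hp
            simp only [H32.JB, H32.JD] at hp1 hp2
            obtain ⟨x, hx, hxv⟩ := Finset.mem_image.mp hp2
            rw [← hxv]
            exact ⟨rfl, hp1, hx⟩) (L ^ a) (6 * T * (L - 1) ^ a) (by
            refine le_trans (le_of_eq ?_) (hSUM2 V L T a (E v.1) hL (hal v.1) v.2)
            congr 1
            apply Finset.sum_congr rfl
            intro z _
            apply Nat.card_congr
            apply Equiv.subtypeEquivRight
            intro ω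
            rw [Finset.mem_image]
            constructor
            · rintro ⟨⟨h1, h2⟩, t, ht, h3⟩
              rw [Finset.mem_Ioo] at ht
              exact ⟨h1, h2, t, ht.1, ht.2, h3⟩
            · rintro ⟨h1, h2, t, h3, h4, h5⟩
              exact ⟨⟨h1, h2⟩, t, Finset.mem_Ioo.mpr ⟨h3, h4⟩, h5⟩)
        have hLa : 0 < L ^ a := by positivity
        refine Nat.le_of_mul_le_mul_left (?_ : L ^ a * _ ≤ L ^ a * _) hLa
        calc L ^ a * (16 * K * ∑ p, Nat.card {ω : Q × V → St L //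
              H32.JB G E T ℓ (Sum.inr (Sum.inl p)) ω ∧
              v ∈ H32.JD E T ℓ (Sum.inr (Sum.inl p)) ω})
            = 16 * K * (L ^ a * ∑ p, Nat.card {ω : Q × V → St L //
              H32.JB G E T ℓ (Sum.inr (Sum.inl p)) ω ∧
              v ∈ H32.JD E T ℓ (Sum.inr (Sum.inl p)) ω}) := by ring
          _ ≤ 16 * K * (6 * T * (L - 1) ^ a * Ω) := Nat.mul_le_mul_left _ h1
          _ = 96 * K * T * (L - 1) ^ a * Ω := by ring
          _ ≤ L ^ a * Ω := Nat.mul_le_mul_right _ hn2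
      -- kind three
      have s3 : 16 * K * ∑ p, Nat.card {ω : Q × V → St L //
          H32.JB G E T ℓ (Sum.inr (Sum.inr (Sum.inl p))) ω ∧
          v ∈ H32.JD E T ℓ (Sum.inr (Sum.inr (Sum.inl p))) ω} ≤ Ω := by
        have h1 := H32.lift_sum hLIFT
          (fun (q : Q) (i : (n : Fin T) × (Fin (n.1 + 1) → V)) (ω : V → St L) =>
            IsC (E q).H (cyc i.2) (i.1.1 + 1) ∧ Ev3 (E q) ω (cyc i.2) (i.1.1 + 1))
          (fun _ i _ => (Finset.Ioc 0 i.1.1).image (cyc i.2))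
          (fun p ω => H32.JB G E T ℓ (Sum.inr (Sum.inr (Sum.inl p))) ω ∧
            v ∈ H32.JD E T ℓ (Sum.inr (Sum.inr (Sum.inl p))) ω) v.1 v.2 (by
            intro p ω hp
            obtain ⟨hp1, hp2⟩ := hp
            simp only [H32.JB, H32.JD] at hp1 hp2
            obtain ⟨x, hx, hxv⟩ := Finset.mem_image.mp hp2
            rw [← hxv]
            exact ⟨rfl, hp1, hx⟩) (3 ^ h) (4 * T ^ 2) (by
            refine le_trans (le_of_eq ?_) (hSUM3 V L T h G (E v.1) hG (hE v.1) v.2)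
            congr 1
            apply Finset.sum_congr rfl
            intro z _
            apply Nat.card_congr
            apply Equiv.subtypeEquivRight
            intro ω
            rw [Finset.mem_image]
            constructor
            · rintro ⟨⟨h1, h2⟩, t, ht, h3⟩
              rw [Finset.mem_Ioc] at ht
              exact ⟨h1, h2, t, ht.1, ht.2, h3⟩
            · rintro ⟨h1, h2, t, h3, h4, h5⟩
              exact ⟨⟨h1, h2⟩, t, Finset.mem_Ioc.mpr ⟨h3, h4⟩, h5⟩)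
        have hLa : 0 < 3 ^ h := by positivity
        refine Nat.le_of_mul_le_mul_left (?_ : 3 ^ h * _ ≤ 3 ^ h * _) hLa
        have h2 : 64 * K * T ^ 2 ≤ 3 ^ h := by
          refine le_trans ?_ hn3
          have h3 : 1 ≤ ℓ * (2 * T + ℓ) ^ 2 := by
            apply Nat.one_le_iff_ne_zero.mpr
            positivity
          calc 64 * K * T ^ 2 ≤ 64 * K * T ^ 2 * (ℓ * (2 * T + ℓ) ^ 2) :=
                Nat.le_mul_of_pos_right _ h3
            _ = 64 * (K * ℓ * T * (T * (2 * T + ℓ) ^ 2)) := by ring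
            _ ≤ 6400 * (K * ℓ * T * ((2 * T + ℓ) * (2 * T + ℓ) ^ 2)) := by
                gcongr
                · norm_num
                · omega
            _ = 6400 * K * ℓ * T * (2 * T + ℓ) ^ 3 := by ring
        calc 3 ^ h * (16 * K * ∑ p, Nat.card {ω : Q × V → St L //
              H32.JB G E T ℓ (Sum.inr (Sum.inr (Sum.inl p))) ω ∧
              v ∈ H32.JD E T ℓ (Sum.inr (Sum.inr (Sum.inl p))) ω})
            = 16 * K * (3 ^ h * ∑ p, Nat.card {ω : Q × V → St L //
              H32.JB G E T ℓ (Sum.inr (Sum.inr (Sum.inl p))) ω ∧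
              v ∈ H32.JD E T ℓ (Sum.inr (Sum.inr (Sum.inl p))) ω}) := by ring
          _ ≤ 16 * K * (4 * T ^ 2 * Ω) := Nat.mul_le_mul_left _ h1
          _ = 64 * K * T ^ 2 * Ω := by ring
          _ ≤ 3 ^ h * Ω := Nat.mul_le_mul_right _ h2
      -- kind four
      have s4 : 16 * K * ∑ p, Nat.card {ω : Q × V → St L //
          H32.JB G E T ℓ (Sum.inr (Sum.inr (Sum.inr p))) ω ∧
          v ∈ H32.JD E T ℓ (Sum.inr (Sum.inr (Sum.inr p))) ω} ≤ Ω := by
        have h1 := H32.lift_sum hLIFT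
          (fun (q : Q) (i : BIdx V (2 * T + ℓ)) (ω : V → St L) =>
            BEv (E q) ω T ℓ i.2.1 i.2.2.1 i.2.2.2.1 i.2.2.2.2)
          (fun q i ω => (Supp (E q) ω T i.2.1 i.2.2.1).toFinset)
          (fun p ω => H32.JB G E T ℓ (Sum.inr (Sum.inr (Sum.inr p))) ω ∧
            v ∈ H32.JD E T ℓ (Sum.inr (Sum.inr (Sum.inr p))) ω) v.1 v.2 (by
            intro p ω hp
            obtain ⟨hp1, hp2⟩ := hp
            simp only [H32.JB, H32.JD] at hp1 hp2
            obtain ⟨x, hx, hxv⟩ := Finset.mem_image.mp hp2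
            rw [← hxv]
            exact ⟨rfl, hp1, hx⟩) (3 ^ h) (400 * ℓ * T * (2 * T + ℓ) ^ 3) (by
            refine le_trans (le_of_eq ?_)
              (hSUMB V L T ℓ h G (E v.1) (by omega) hG (hE v.1) v.2)
            congr 1
            apply Finset.sum_congr rfl
            intro z _
            apply Nat.card_congr
            apply Equiv.subtypeEquivRight
            intro ω
            rw [Set.mem_toFinset])
        have hLa : 0 < 3 ^ h := by positivity
        refine Nat.le_of_mul_le_mul_left (?_ : 3 ^ h * _ ≤ 3 ^ h * _) hLa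
        calc 3 ^ h * (16 * K * ∑ p, Nat.card {ω : Q × V → St L //
              H32.JB G E T ℓ (Sum.inr (Sum.inr (Sum.inr p))) ω ∧
              v ∈ H32.JD E T ℓ (Sum.inr (Sum.inr (Sum.inr p))) ω})
            = 16 * K * (3 ^ h * ∑ p, Nat.card {ω : Q × V → St L //
              H32.JB G E T ℓ (Sum.inr (Sum.inr (Sum.inr p))) ω ∧
              v ∈ H32.JD E T ℓ (Sum.inr (Sum.inr (Sum.inr p))) ω}) := by ring
          _ ≤ 16 * K * (400 * ℓ * T * (2 * T + ℓ) ^ 3 * Ω) := Nat.mul_le_mul_left _ h1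
          _ = 6400 * K * ℓ * T * (2 * T + ℓ) ^ 3 * Ω := by ring
          _ ≤ 3 ^ h * Ω := Nat.mul_le_mul_right _ hn3
      rw [Fintype.sum_sum_type, Fintype.sum_sum_type, Fintype.sum_sum_type]
      nlinarith [s1, s2, s3, s4])
  refine ⟨fun q v => ω (q, v), fun q => ⟨?_, ?_⟩, ?_⟩
  · apply hTAM V L T (E q) (fun v => ω (q, v)) (by omega)
    · intro z hz hev
      have hc := H32.cyc_restrict z T
      refine hω (Sum.inr (Sum.inl (q, fun i : Fin (T + 1) => z i.val))) ?_
      simp only [H32.JB]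
      exact ⟨H32.isP_congr hc hz, H32.ev2_congr hc hev⟩
    · intro z m hm hz hev
      have h3 := hz.1
      obtain ⟨n, rfl⟩ : ∃ n, m = n + 1 := ⟨m - 1, by omega⟩
      have hc := H32.cyc_restrict' z n hz.2.2.1
      refine hω (Sum.inr (Sum.inr (Sum.inl (q, ⟨⟨n, by omega⟩,
        fun i : Fin (n + 1) => z i.val⟩)))) ?_
      simp only [H32.JB]
      exact ⟨H32.isC_congr hc hz, H32.ev3_congr hc hev⟩
  · intro n z r y κ hn hB
    have h1 := hB.2.2.1
    have h2 := hB.2.2.2.1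
    have hr : r < n + 1 := by omega
    have hy : y < n + 1 := by omega
    refine hω (Sum.inr (Sum.inr (Sum.inr (q, ⟨⟨n, hn⟩, z, ⟨r, hr⟩, ⟨y, hy⟩, κ⟩)))) ?_
    simp only [H32.JB]
    exact hB
  · intro q x q' x' hne' hnear hk
    refine hω (Sum.inl ((q, x), (q', x'))) ?_
    simp only [H32.JB]
    exact ⟨hne', hnear, hk.1, hk.2⟩

end Pool.Agent.LAG
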